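import Pool.Agent.H52.MV.NoetherianRank

open Set TopologicalSpace Cardinal Ordinal Function

universe u

namespace Pool.Agent.Results.MP_5675d3_gt.NoetherianRank

open Pool.H52.MV.NoetherianRank

/-- **Answer to Q1 (negative), for every non-cardinal ordinal.** For every ordinal `α` that is not
a cardinal there are a first countable zero-dimensional Hausdorff space `X` and a Noetherian base
`B` of `X` consisting of clopen sets, with `rank B = α`, such that every base `B' ⊆ B` of `X` has
`rank B' > |α|`. -/
theorem result (α : Ordinal.{u}) (hα : α.card.ord ≠ α) :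
    ∃ (X : Type u) (_ : TopologicalSpace X) (B : Set (Set X)),
      T2Space X ∧ FirstCountableTopology X ∧ (∀ U ∈ B, IsClopen U) ∧
      IsTopologicalBasis B ∧ IsNoetherianFamily B ∧ rank B = α ∧
      ∀ B' ⊆ B, IsTopologicalBasis B' → IsNoetherianFamily B' ∧ α.card.ord < rank B' :=
  Pool.H52.MV.NoetherianRank.result α hα

end Pool.Agent.Results.MP_5675d3_gt.NoetherianRank
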